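import Mathlib

set_option autoImplicit false

/-! # Strong d-spaces -/

namespace Pool.Agent.N489.SD

/-- `up x` is the set of all `y` with `x ≤ y` in the specialization order, that is, with
`x ∈ closure {y}`. -/
def up {X : Type*} [TopologicalSpace X] (x : X) : Set X := {y | x ∈ closure {y}}

/-- `D` is a nonempty directed set for the specialization order. -/
def IsDirected {X : Type*} [TopologicalSpace X] (D : Set X) : Prop :=
  D.Nonempty ∧ ∀ a ∈ D, ∀ b ∈ D, ∃ c ∈ D, c ∈ up a ∧ c ∈ up b

/-- `X` is a strong d-space. -/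
def StrongDSpace (X : Type*) [TopologicalSpace X] : Prop :=
  T0Space X ∧ ∀ D : Set X, IsDirected D → ∀ (x : X) (U : Set X), IsOpen U →
    (⋂ d ∈ D, up d) ∩ up x ⊆ U → ∃ d ∈ D, up d ∩ up x ⊆ U

end Pool.Agent.N489.SD
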