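import Mathlib

set_option autoImplicit false

/-! # Two disjoint dense sets of free ultrafilters -/

open Set
open scoped Cardinal

namespace Pool.Agent.N489.SD

universe u v

/-- distinct representatives for sets which are large -/
theorem exists_distinct {ι : Type u} {P : Type u} (C : ι → Set P) (h : ∀ i, #ι ≤ #(C i)) :
    ∃ f : ι → P, Function.Injective f ∧ ∀ i, f i ∈ C i := by
  classical
  obtain ⟨r, hr, hord⟩ := Cardinal.exists_ord_eq ι
  have hlt : ∀ i, #{j // r j i} < #ι := by
    intro i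
    have h1 := Ordinal.typein_lt_type r i
    rw [← hord, Cardinal.lt_ord] at h1
    exact h1
  have hex : ∀ i (g : ∀ j, r j i → P), ∃ p ∈ C i, ∀ j (hj : r j i), g j hj ≠ p := by
    intro i g
    by_contra hcon
    push Not at hcon
    have h2 : C i ⊆ range (fun j : {j // r j i} => g j.1 j.2) := by
      intro p hp
      obtain ⟨j, hj, hjp⟩ := hcon p hp
      exact ⟨⟨j, hj⟩, hjp⟩
    have h3 : #(C i) ≤ #{j // r j i} := (Cardinal.mk_le_mk_of_subset h2).trans Cardinal.mk_range_le
    exact absurd ((h i).trans h3) (not_le.2 (hlt i))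
  let F : ∀ i, (∀ j, r j i → P) → P := fun i g => (hex i g).choose
  let f : ι → P := hr.wf.fix F
  have hf : ∀ i, f i ∈ C i ∧ ∀ j, r j i → f j ≠ f i := by
    intro i
    have e : f i = F i (fun j _ => f j) := hr.wf.fix_eq F i
    have h4 := (hex i (fun j _ => f j)).choose_spec
    rw [e]
    exact ⟨h4.1, fun j hj => h4.2 j hj⟩
  refine ⟨f, ?_, fun i => (hf i).1⟩
  intro i j hij
  by_contra hne
  have h5 : r i j ∨ r j i := by
    by_contra hcon
    rw [not_or] at hcon
    exact hne (hr.trichotomous i j hcon.1 hcon.2)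
  rcases h5 with h5 | h5
  · exact (hf j).2 i h5 hij
  · exact (hf i).2 j h5 hij.symm

/-- a branch of the binary tree inside `S` -/
noncomputable def br (e : ℕ → ℕ) (x : ℕ → Bool) (n : ℕ) : ℕ :=
  e (Encodable.encode ((List.range n).map x))

theorem br_eq {e : ℕ → ℕ} (he : Function.Injective e) {x y : ℕ → Bool} {n m : ℕ}
    (h : br e x n = br e y m) : n = m ∧ ∀ k < n, x k = y k := by
  have h1 : (List.range n).map x = (List.range m).map y := Encodable.encode_injective (he h)
  have h2 : n = m := by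
    have := congrArg List.length h1
    simpa using this
  subst h2
  refine ⟨rfl, fun k hk => ?_⟩
  rw [List.map_inj_left] at h1
  exact h1 k (List.mem_range.2 hk)

/-- the set of free ultrafilters which contain `S` -/
def Free (S : Set ℕ) : Set (Ultrafilter ℕ) := {p | S ∈ p ∧ ∀ n : ℕ, {n}ᶜ ∈ p}

theorem finite_notMem {S : Set ℕ} {p : Ultrafilter ℕ} (hp : p ∈ Free S) {F : Set ℕ}
    (hF : F.Finite) : F ∉ p := by
  intro h
  have h1 : Fᶜ ∈ p := by
    have h2 : Fᶜ = ⋂ n ∈ F, {n}ᶜ := by
      ext m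
      simp only [mem_compl_iff, mem_iInter, mem_singleton_iff]
      exact ⟨fun h i hi he => h (he ▸ hi), fun h hm => h m hm rfl⟩
    rw [h2]
    have := (Filter.biInter_mem hF (f := (p : Filter ℕ)) (s := fun n => ({n}ᶜ : Set ℕ))).2
      (fun n _ => hp.2 n)
    exact this
  exact Ultrafilter.compl_notMem_iff.2 h h1

theorem free_large (S : Set ℕ) (hS : S.Infinite) : 𝔠 ≤ #(Free S) := by
  obtain ⟨e, he, heS⟩ : ∃ e : ℕ → ℕ, Function.Injective e ∧ ∀ n, e n ∈ S :=
    ⟨fun n => (hS.natEmbedding S n : ℕ), fun a b h => (hS.natEmbedding S).injective (Subtype.ext h),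
      fun n => (hS.natEmbedding S n).2⟩
  have hbinj : ∀ x, Function.Injective (br e x) := fun x n m h => (br_eq he h).1
  let q : (ℕ → Bool) → Ultrafilter ℕ := fun x => (Filter.hyperfilter ℕ).map (br e x)
  have hq : ∀ x, q x ∈ Free S := by
    intro x
    refine ⟨?_, ?_⟩
    · rw [Ultrafilter.mem_map]
      have : br e x ⁻¹' S = Set.univ := by
        ext n
        simp only [mem_preimage, mem_univ, iff_true]
        exact heS _
      rw [this]
      exact Filter.univ_mem
    · intro n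
      rw [Ultrafilter.mem_map]
      have hfin : (br e x ⁻¹' {n}).Finite := (finite_singleton n).preimage (hbinj x).injOn
      have := hfin.compl_mem_hyperfilter
      rw [preimage_compl]
      exact this
  have hinj : Function.Injective q := by
    intro x y hxy
    by_contra hne
    obtain ⟨k, hk⟩ : ∃ k, x k ≠ y k := by
      by_contra hcon
      push Not at hcon
      exact hne (funext hcon)
    have h1 : range (br e x) ∈ q x := by
      rw [Ultrafilter.mem_map]
      have : br e x ⁻¹' (range (br e x)) = Set.univ := by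
        ext n; simp
      rw [this]; exact Filter.univ_mem
    have h2 : range (br e y) ∈ q x := by
      rw [hxy, Ultrafilter.mem_map]
      have : br e y ⁻¹' (range (br e y)) = Set.univ := by
        ext n; simp
      rw [this]; exact Filter.univ_mem
    have h3 : range (br e x) ∩ range (br e y) ∈ q x := Filter.inter_mem h1 h2
    refine finite_notMem (hq x) ?_ h3
    apply ((finite_Iic k).image (br e x)).subset
    rintro _ ⟨⟨n, rfl⟩, ⟨m, hm⟩⟩
    obtain ⟨h4, h5⟩ := br_eq he hm
    subst h4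
    refine ⟨m, ?_, rfl⟩
    rw [mem_Iic]
    by_contra hcon
    exact hk (h5 k (not_le.1 hcon)).symm
  have h6 : #(ℕ → Bool) ≤ #(Free S) :=
    Cardinal.mk_le_of_injective (f := fun x => (⟨q x, hq x⟩ : Free S))
      (fun x y h => hinj (congrArg Subtype.val h))
  have h7 : #(ℕ → Bool) = 𝔠 := by
    simp
  rw [← h7]
  exact h6

/-- there are two disjoint dense sets of free ultrafilters on `ℕ` -/
theorem exists_dense_pair : ∃ A B : Set (Ultrafilter ℕ),
    (∀ p ∈ A, ∀ n : ℕ, {n}ᶜ ∈ p) ∧ (∀ p ∈ B, ∀ n : ℕ, {n}ᶜ ∈ p) ∧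
    (∀ S : Set ℕ, S.Infinite → ∃ p ∈ A, S ∈ p) ∧ (∀ S : Set ℕ, S.Infinite → ∃ p ∈ B, S ∈ p) ∧
    Disjoint A B := by
  let ι := {S : Set ℕ // S.Infinite} × Bool
  have hι : #ι ≤ 𝔠 := by
    have h1 : #{S : Set ℕ // S.Infinite} ≤ 𝔠 := by
      refine (Cardinal.mk_subtype_le _).trans ?_
      rw [Cardinal.mk_set]
      simp
    have h2 : #ι = #{S : Set ℕ // S.Infinite} * #Bool := Cardinal.mk_prod _ _ |>.trans (by simp)
    rw [h2]
    calc #{S : Set ℕ // S.Infinite} * #Bool ≤ 𝔠 * 𝔠 := mul_le_mul' h1 ((Cardinal.mk_le_aleph0).trans Cardinal.aleph0_le_continuum)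
      _ = 𝔠 := by simp
  obtain ⟨f, hf, hfC⟩ := exists_distinct (ι := ι) (P := Ultrafilter ℕ) (fun i => Free i.1.1)
    (fun i => hι.trans (free_large _ i.1.2))
  refine ⟨range (fun S => f (S, true)), range (fun S => f (S, false)), ?_, ?_, ?_, ?_, ?_⟩
  · rintro _ ⟨S, rfl⟩
    exact (hfC (S, true)).2
  · rintro _ ⟨S, rfl⟩
    exact (hfC (S, false)).2
  · intro S hS
    exact ⟨_, ⟨⟨S, hS⟩, rfl⟩, (hfC (⟨S, hS⟩, true)).1⟩
  · intro S hS
    exact ⟨_, ⟨⟨S, hS⟩, rfl⟩, (hfC (⟨S, hS⟩, false)).1⟩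
  · rw [Set.disjoint_left]
    rintro _ ⟨S, rfl⟩ ⟨T, hT⟩
    have := congrArg Prod.snd (hf hT)
    simp at this

end Pool.Agent.N489.SD
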