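import Mathlib
import Pool.Agent.N489.SD.Defs
import Pool.Agent.N489.SD.Ultra

set_option autoImplicit false

/-! # The counterexample: a strong d-space attached to a dense set of free ultrafilters -/

open Set Topology

namespace Pool.Agent.N489.SD

/-- The points: a chain with supremum `sup`, a point `base`, the points `fin n` and `lim p`. -/
inductive Pt (A : Set (Ultrafilter ℕ)) : Type
  | chain (k : ℕ) : Pt A
  | sup : Pt A
  | base : Pt A
  | fin (n : ℕ) : Pt A
  | lim (p : A) : Pt A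

namespace Pt

variable {A : Set (Ultrafilter ℕ)}

/-- openness -/
def Op (U : Set (Pt A)) : Prop :=
  (∀ k, chain k ∈ U → chain (k + 1) ∈ U ∧ sup ∈ U ∧ (∀ n, k ≤ n → fin n ∈ U) ∧ ∀ p, lim p ∈ U) ∧
  (sup ∈ U → (∃ k, chain k ∈ U) ∧ ∀ p, lim p ∈ U) ∧
  (base ∈ U → (∀ n, fin n ∈ U) ∧ ∀ p, lim p ∈ U) ∧
  (∀ p : A, lim p ∈ U → {n | fin n ∈ U} ∈ p.1)

theorem Op.chain_le {U : Set (Pt A)} (hU : Op U) {k l : ℕ} (hkl : k ≤ l) (hk : chain k ∈ U) :
    chain l ∈ U := by
  induction l, hkl using Nat.le_induction with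
  | base => exact hk
  | succ l _ ih => exact (hU.1 l ih).1

instance : TopologicalSpace (Pt A) where
  IsOpen := Op
  isOpen_univ := ⟨by simp, by simp, by simp, fun p _ => by
    simp only [Set.mem_univ, Set.ofPred_true]
    exact Filter.univ_mem⟩
  isOpen_inter := by
    intro U V hU hV
    refine ⟨?_, ?_, ?_, ?_⟩
    · rintro k ⟨h1, h2⟩
      have a := hU.1 k h1
      have b := hV.1 k h2
      exact ⟨⟨a.1, b.1⟩, ⟨a.2.1, b.2.1⟩, fun n hn => ⟨a.2.2.1 n hn, b.2.2.1 n hn⟩,
        fun p => ⟨a.2.2.2 p, b.2.2.2 p⟩⟩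
    · rintro ⟨h1, h2⟩
      obtain ⟨⟨k, hk⟩, a⟩ := hU.2.1 h1
      obtain ⟨⟨l, hl⟩, b⟩ := hV.2.1 h2
      exact ⟨⟨max k l, hU.chain_le (le_max_left _ _) hk, hV.chain_le (le_max_right _ _) hl⟩,
        fun p => ⟨a p, b p⟩⟩
    · rintro ⟨h1, h2⟩
      obtain ⟨a, a'⟩ := hU.2.2.1 h1
      obtain ⟨b, b'⟩ := hV.2.2.1 h2
      exact ⟨fun n => ⟨a n, b n⟩, fun p => ⟨a' p, b' p⟩⟩
    · rintro p ⟨h1, h2⟩
      exact Filter.inter_mem (hU.2.2.2 p h1) (hV.2.2.2 p h2)
  isOpen_sUnion := by
    intro S hS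
    refine ⟨?_, ?_, ?_, ?_⟩
    · rintro k ⟨U, hU, h⟩
      have a := (hS U hU).1 k h
      exact ⟨⟨U, hU, a.1⟩, ⟨U, hU, a.2.1⟩, fun n hn => ⟨U, hU, a.2.2.1 n hn⟩,
        fun p => ⟨U, hU, a.2.2.2 p⟩⟩
    · rintro ⟨U, hU, h⟩
      obtain ⟨⟨k, hk⟩, a⟩ := (hS U hU).2.1 h
      exact ⟨⟨k, U, hU, hk⟩, fun p => ⟨U, hU, a p⟩⟩
    · rintro ⟨U, hU, h⟩
      obtain ⟨a, a'⟩ := (hS U hU).2.2.1 h
      exact ⟨fun n => ⟨U, hU, a n⟩, fun p => ⟨U, hU, a' p⟩⟩
    · rintro p ⟨U, hU, h⟩
      exact Filter.mem_of_superset ((hS U hU).2.2.2 p h) fun n hn => ⟨U, hU, hn⟩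

theorem isOpen_iff {U : Set (Pt A)} : IsOpen U ↔ Op U := Iff.rfl

/-- the smallest open set containing `chain k` -/
def oc (k : ℕ) : Set (Pt A) := {x | match x with
  | chain l => k ≤ l
  | sup => True
  | base => False
  | fin n => k ≤ n
  | lim _ => True}

/-- the smallest open set containing `base` -/
def ob : Set (Pt A) := {x | match x with
  | chain _ => False
  | sup => False
  | base => True
  | fin _ => True
  | lim _ => True}

/-- an open set containing `lim p`, if `S ∈ p` -/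
def ol (p : A) (S : Set ℕ) : Set (Pt A) := {x | match x with
  | chain _ => False
  | sup => False
  | base => False
  | fin n => n ∈ S
  | lim q => q = p}

theorem isOpen_oc (hA : ∀ p ∈ A, ∀ n : ℕ, {n}ᶜ ∈ p) (k : ℕ) : IsOpen (oc k : Set (Pt A)) := by
  refine ⟨?_, ?_, ?_, ?_⟩
  · intro l hl
    have hl' : k ≤ l := hl
    exact ⟨Nat.le_succ_of_le hl', trivial, fun n hn => (hl'.trans hn : k ≤ n), fun p => trivial⟩
  · intro _
    exact ⟨⟨k, (le_refl k : k ≤ k)⟩, fun p => trivial⟩
  · intro h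
    exact (h : False).elim
  · intro p _
    have h1 : (Set.Iio k)ᶜ ∈ p.1 := by
      by_contra hcon
      have h2 : Set.Iio k ∈ p.1 := Ultrafilter.compl_notMem_iff.1 hcon
      exact finite_notMem (p := p.1) (S := Set.univ) ⟨Filter.univ_mem, hA p.1 p.2⟩
        (Set.finite_Iio k) h2
    refine Filter.mem_of_superset h1 ?_
    intro n hn
    have : ¬ n < k := hn
    exact (not_lt.1 this : k ≤ n)

theorem isOpen_ob : IsOpen (ob : Set (Pt A)) := by
  refine ⟨fun k h => (h : False).elim, fun h => (h : False).elim,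
    fun _ => ⟨fun n => trivial, fun p => trivial⟩, fun p _ => ?_⟩
  have : {n | fin n ∈ (ob : Set (Pt A))} = Set.univ := Set.eq_univ_of_forall fun n => trivial
  rw [this]
  exact Filter.univ_mem

theorem isOpen_ol {p : A} {S : Set ℕ} (hS : S ∈ p.1) : IsOpen (ol p S) := by
  refine ⟨fun k h => (h : False).elim, fun h => (h : False).elim,
    fun h => (h : False).elim, fun q hq => ?_⟩
  have hq' : q = p := hq
  rw [hq']
  exact hS

theorem isOpen_fin (n : ℕ) : IsOpen ({fin n} : Set (Pt A)) := by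
  refine ⟨fun k h => ?_, fun h => ?_, fun h => ?_, fun q hq => ?_⟩
  · simp at h
  · simp at h
  · simp at h
  · simp at hq

theorem mem_up_iff {x y : Pt A} : y ∈ up x ↔ ∀ U : Set (Pt A), IsOpen U → x ∈ U → y ∈ U := by
  show x ∈ closure {y} ↔ _
  rw [mem_closure_iff]
  constructor
  · intro h U hU hx
    obtain ⟨z, hz, hzy⟩ := h U hU hx
    rwa [← mem_singleton_iff.1 hzy]
  · intro h U hU hx
    exact ⟨y, h U hU hx, rfl⟩

theorem self_mem_up (x : Pt A) : x ∈ up x := mem_up_iff.2 fun _ _ h => h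

/-! ### the sets `up x` -/

variable (hA : ∀ p ∈ A, ∀ n : ℕ, {n}ᶜ ∈ p)

include hA

theorem up_chain (k : ℕ) : up (chain k : Pt A) = oc k := by
  ext y
  rw [mem_up_iff]
  constructor
  · intro h
    exact h _ (isOpen_oc hA k) (le_refl k : k ≤ k)
  · intro hy U hU hk
    have h1 := hU.1 k hk
    cases y with
    | chain l => exact Op.chain_le hU (hy : k ≤ l) hk
    | sup => exact h1.2.1
    | base => exact (hy : False).elim
    | fin n => exact h1.2.2.1 n hy
    | lim p => exact h1.2.2.2 p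

omit hA in
theorem up_base : up (base : Pt A) = ob := by
  ext y
  rw [mem_up_iff]
  constructor
  · intro h
    exact h _ isOpen_ob trivial
  · intro hy U hU hk
    have h1 := hU.2.2.1 hk
    cases y with
    | chain l => exact (hy : False).elim
    | sup => exact (hy : False).elim
    | base => exact hk
    | fin n => exact h1.1 n
    | lim p => exact h1.2 p

omit hA in
theorem up_fin (n : ℕ) : up (fin n : Pt A) = {fin n} := by
  ext y
  rw [mem_up_iff]
  constructor
  · intro h
    exact h _ (isOpen_fin n) rfl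
  · rintro rfl U _ hk
    exact hk

theorem up_lim (p : A) : up (lim p : Pt A) = {lim p} := by
  ext y
  rw [mem_up_iff]
  constructor
  · intro h
    cases y with
    | chain l => exact (h _ (isOpen_ol (p := p) Filter.univ_mem) rfl : False).elim
    | sup => exact (h _ (isOpen_ol (p := p) Filter.univ_mem) rfl : False).elim
    | base => exact (h _ (isOpen_ol (p := p) Filter.univ_mem) rfl : False).elim
    | fin n =>
      have h1 : n ∈ ({n}ᶜ : Set ℕ) := h _ (isOpen_ol (p := p) (hA p.1 p.2 n)) rfl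
      exact absurd rfl h1
    | lim q =>
      have h1 : q = p := h _ (isOpen_ol (p := p) Filter.univ_mem) rfl
      rw [h1]
      rfl
  · rintro rfl U _ hk
    exact hk

theorem up_sup : up (sup : Pt A) = {y | y = sup ∨ ∃ p, y = lim p} := by
  ext y
  rw [mem_up_iff]
  constructor
  · intro h
    cases y with
    | chain l =>
      have h1 : l + 1 ≤ l := h _ (isOpen_oc hA (l + 1)) trivial
      omega
    | sup => exact Or.inl rfl
    | base => exact (h _ (isOpen_oc hA 0) trivial : False).elim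
    | fin n =>
      have h1 : n + 1 ≤ n := h _ (isOpen_oc hA (n + 1)) trivial
      omega
    | lim p => exact Or.inr ⟨p, rfl⟩
  · rintro (rfl | ⟨p, rfl⟩) U hU hk
    · exact hk
    · exact (hU.2.1 hk).2 p

theorem up_antisymm {x y : Pt A} (h1 : y ∈ up x) (h2 : x ∈ up y) : x = y := by
  cases x with
  | chain k =>
    rw [up_chain hA] at h1
    cases y with
    | chain l =>
      rw [up_chain hA] at h2
      have a : k ≤ l := h1
      have b : l ≤ k := h2
      rw [le_antisymm a b]
    | sup =>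
      rw [up_sup hA] at h2
      rcases h2 with h | ⟨p, h⟩ <;> cases h
    | base => exact (h1 : False).elim
    | fin n =>
      rw [up_fin] at h2
      cases h2
    | lim p =>
      rw [up_lim hA] at h2
      cases h2
  | sup =>
    rw [up_sup hA] at h1
    rcases h1 with h | ⟨p, h⟩
    · exact h.symm
    · rw [h, up_lim hA] at h2
      cases h2
  | base =>
    rw [up_base] at h1
    cases y with
    | chain l => exact (h1 : False).elim
    | sup => exact (h1 : False).elim
    | base => rfl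
    | fin n =>
      rw [up_fin] at h2
      cases h2
    | lim p =>
      rw [up_lim hA] at h2
      cases h2
  | fin n =>
    rw [up_fin] at h1
    exact h1.symm
  | lim p =>
    rw [up_lim hA] at h1
    exact h1.symm

theorem t0 : T0Space (Pt A) := by
  refine ⟨fun x y h => ?_⟩
  apply up_antisymm hA
  · rw [mem_up_iff]
    intro U hU hx
    exact (h.mem_open_iff hU).1 hx
  · rw [mem_up_iff]
    intro U hU hx
    exact (h.mem_open_iff hU).2 hx

omit hA in
theorem up_trans {x y z : Pt A} (h : y ∈ up x) (h' : z ∈ up y) : z ∈ up x := by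
  rw [mem_up_iff] at *
  exact fun U hU hx => h' U hU (h U hU hx)

/-- a directed set without greatest element is a cofinal subset of the chain -/
theorem directed_cases {D : Set (Pt A)} (hD : IsDirected D) :
    (∃ d ∈ D, ∀ e ∈ D, d ∈ up e) ∨ ((∀ d ∈ D, ∃ k, d = chain k) ∧ ∀ k, ∃ l, k ≤ l ∧ chain l ∈ D) := by
  by_cases hg : ∃ d ∈ D, ∀ e ∈ D, d ∈ up e
  · exact Or.inl hg
  right
  have hfin : ∀ n, fin n ∉ D := by
    intro n hn
    apply hg
    refine ⟨_, hn, fun e he => ?_⟩
    obtain ⟨c, _, h1, h2⟩ := hD.2 _ hn e he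
    rw [up_fin] at h1
    rwa [← mem_singleton_iff.1 h1]
  have hlim : ∀ p, lim p ∉ D := by
    intro n hn
    apply hg
    refine ⟨_, hn, fun e he => ?_⟩
    obtain ⟨c, _, h1, h2⟩ := hD.2 _ hn e he
    rw [up_lim hA] at h1
    rwa [← mem_singleton_iff.1 h1]
  have hsup : sup ∉ D := by
    intro hn
    apply hg
    refine ⟨_, hn, fun e he => ?_⟩
    obtain ⟨c, hc, h1, h2⟩ := hD.2 _ hn e he
    rw [up_sup hA] at h1
    rcases h1 with h | ⟨p, h⟩
    · rwa [← h]
    · exact absurd (h ▸ hc) (hlim p)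
  have hbase : base ∉ D := by
    intro hn
    apply hg
    refine ⟨_, hn, fun e he => ?_⟩
    obtain ⟨c, hc, h1, h2⟩ := hD.2 _ hn e he
    rw [up_base] at h1
    cases c with
    | chain l => exact (h1 : False).elim
    | sup => exact (h1 : False).elim
    | base => exact h2
    | fin n => exact absurd hc (hfin n)
    | lim p => exact absurd hc (hlim p)
  have hch : ∀ d ∈ D, ∃ k, d = chain k := by
    intro d hd
    cases d with
    | chain k => exact ⟨k, rfl⟩
    | sup => exact absurd hd hsup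
    | base => exact absurd hd hbase
    | fin n => exact absurd hd (hfin n)
    | lim p => exact absurd hd (hlim p)
  refine ⟨hch, ?_⟩
  by_contra hcon
  push Not at hcon
  obtain ⟨k, hk⟩ := hcon
  have hb : ∀ l, chain l ∈ D → l < k := by
    intro l hl
    by_contra h
    exact hk l (not_lt.1 h) hl
  have hfinite : {l | (chain l : Pt A) ∈ D}.Finite := (Set.finite_Iio k).subset fun l hl => hb l hl
  have hne : {l | (chain l : Pt A) ∈ D}.Nonempty := by
    obtain ⟨d, hd⟩ := hD.1
    obtain ⟨l, rfl⟩ := hch d hd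
    exact ⟨l, hd⟩
  obtain ⟨l, hl, hmax⟩ := Set.exists_max_image _ id hfinite hne
  apply hg
  refine ⟨chain l, hl, fun e he => ?_⟩
  obtain ⟨j, rfl⟩ := hch e he
  rw [up_chain hA]
  exact (hmax j he : j ≤ l)

/-- the space attached to a dense set of free ultrafilters is a strong d-space -/
theorem strongDSpace (hd : ∀ S : Set ℕ, S.Infinite → ∃ p ∈ A, S ∈ p) : StrongDSpace (Pt A) := by
  refine ⟨t0 hA, ?_⟩
  intro D hD x U hU hsub
  rcases directed_cases hA hD with ⟨d, hdD, hdg⟩ | ⟨hch, hcof⟩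
  · refine ⟨d, hdD, ?_⟩
    rintro y ⟨hy1, hy2⟩
    apply hsub
    refine ⟨?_, hy2⟩
    rw [mem_iInter₂]
    intro e he
    exact up_trans (hdg e he) hy1
  · have hlimmem : ∀ p, (lim p : Pt A) ∈ ⋂ d ∈ D, up d := by
      intro p
      rw [mem_iInter₂]
      intro d hd
      obtain ⟨k, rfl⟩ := hch d hd
      rw [up_chain hA]
      trivial
    have hsupmem : (sup : Pt A) ∈ ⋂ d ∈ D, up d := by
      rw [mem_iInter₂]
      intro d hd
      obtain ⟨k, rfl⟩ := hch d hd
      rw [up_chain hA]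
      trivial
    have hkey : (sup : Pt A) ∈ up x → ∃ d ∈ D, up d ∩ up x ⊆ U := by
      intro hx
      have h1 : (sup : Pt A) ∈ U := hsub ⟨hsupmem, hx⟩
      obtain ⟨⟨k, hk⟩, -⟩ := hU.2.1 h1
      obtain ⟨l, hkl, hl⟩ := hcof k
      refine ⟨_, hl, ?_⟩
      rintro y ⟨hy, -⟩
      exact mem_up_iff.1 hy U hU (Op.chain_le hU hkl hk)
    cases x with
    | chain j =>
      apply hkey
      rw [up_chain hA]
      trivial
    | sup => exact hkey (self_mem_up _)
    | base =>
      have h1 : ∀ p, (lim p : Pt A) ∈ U := fun p => hsub ⟨hlimmem p, by rw [up_base]; trivial⟩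
      have h2 : {n | (fin n : Pt A) ∉ U}.Finite := by
        by_contra hinf
        obtain ⟨p, hp, hpS⟩ := hd _ hinf
        have h3 := hU.2.2.2 ⟨p, hp⟩ (h1 _)
        have h4 := Filter.inter_mem hpS h3
        have h5 : {n | (fin n : Pt A) ∉ U} ∩ {n | (fin n : Pt A) ∈ U} = ∅ := by
          ext n
          simp
        rw [h5] at h4
        exact Ultrafilter.empty_notMem h4
      obtain ⟨k, hk⟩ := h2.bddAbove
      obtain ⟨l, hkl, hl⟩ := hcof (k + 1)
      refine ⟨_, hl, ?_⟩
      rintro y ⟨hy1, hy2⟩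
      rw [up_chain hA] at hy1
      rw [up_base] at hy2
      cases y with
      | chain l => exact (hy2 : False).elim
      | sup => exact (hy2 : False).elim
      | base => exact (hy1 : False).elim
      | fin n =>
        have h6 : l ≤ n := hy1
        by_contra hn
        have : n ≤ k := hk hn
        omega
      | lim p => exact h1 p
    | fin n =>
      obtain ⟨l, hkl, hl⟩ := hcof (n + 1)
      refine ⟨_, hl, ?_⟩
      rintro y ⟨hy1, hy2⟩
      rw [up_fin] at hy2
      rw [mem_singleton_iff.1 hy2, up_chain hA] at hy1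
      have : l ≤ n := hy1
      omega
    | lim p =>
      obtain ⟨l, hkl, hl⟩ := hcof 0
      refine ⟨_, hl, ?_⟩
      rintro y ⟨hy1, hy2⟩
      rw [up_lim hA] at hy2
      rw [mem_singleton_iff.1 hy2]
      exact hsub ⟨hlimmem p, self_mem_up _⟩

end Pt

theorem mem_up_iff {X : Type*} [TopologicalSpace X] {x y : X} :
    y ∈ up x ↔ ∀ U : Set X, IsOpen U → x ∈ U → y ∈ U := by
  show x ∈ closure {y} ↔ _
  rw [mem_closure_iff]
  constructor
  · intro h U hU hx
    obtain ⟨z, hz, hzy⟩ := h U hU hx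
    rwa [← mem_singleton_iff.1 hzy]
  · intro h U hU hx
    exact ⟨y, h U hU hx, rfl⟩

theorem up_prod {X Y : Type*} [TopologicalSpace X] [TopologicalSpace Y] (z : X × Y) :
    up z = up z.1 ×ˢ up z.2 := by
  ext w
  show z ∈ closure {w} ↔ _
  have h1 : ({w} : Set (X × Y)) = {w.1} ×ˢ {w.2} := by
    rw [singleton_prod_singleton]
  rw [h1, closure_prod_eq]
  rfl

/-- the product of the spaces attached to two disjoint dense sets is not a strong d-space -/
theorem not_strongDSpace_prod {A B : Set (Ultrafilter ℕ)} (hA : ∀ p ∈ A, ∀ n : ℕ, {n}ᶜ ∈ p)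
    (hB : ∀ p ∈ B, ∀ n : ℕ, {n}ᶜ ∈ p) (hAB : Disjoint A B) :
    ¬ StrongDSpace (Pt A × Pt B) := by
  rintro ⟨-, h⟩
  let Δ : Set (Pt A × Pt B) := range fun n => (Pt.fin n, Pt.fin n)
  let D : Set (Pt A × Pt B) := range fun k => (Pt.chain k, Pt.chain k)
  have hup : ∀ k l, k ≤ l → ((Pt.chain l, Pt.chain l) : Pt A × Pt B) ∈ up (Pt.chain k, Pt.chain k) := by
    intro k l hkl
    rw [up_prod]
    refine ⟨?_, ?_⟩
    · show _ ∈ up (Pt.chain k)
      rw [Pt.up_chain hA]; exact hkl
    · show _ ∈ up (Pt.chain k)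
      rw [Pt.up_chain hB]; exact hkl
  have hD : IsDirected D := by
    refine ⟨⟨_, 0, rfl⟩, ?_⟩
    rintro _ ⟨k, rfl⟩ _ ⟨l, rfl⟩
    exact ⟨_, ⟨max k l, rfl⟩, hup k _ (le_max_left _ _), hup l _ (le_max_right _ _)⟩
  obtain ⟨_, ⟨k, rfl⟩, hk⟩ := h D hD (Pt.base, Pt.base) (closure Δ)ᶜ isClosed_closure.isOpen_compl (by
    rintro ⟨u, v⟩ ⟨huv, hb⟩
    rw [mem_iInter₂] at huv
    rw [up_prod] at hb
    have hbu : u ∈ Pt.ob := by
      have := hb.1
      rw [Pt.up_base] at this
      exact this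
    have hbv : v ∈ Pt.ob := by
      have := hb.2
      rw [Pt.up_base] at this
      exact this
    have hcu : ∀ k, u ∈ Pt.oc k := by
      intro k
      have := huv _ ⟨k, rfl⟩
      rw [up_prod] at this
      have h2 := this.1
      rw [Pt.up_chain hA] at h2
      exact h2
    have hcv : ∀ k, v ∈ Pt.oc k := by
      intro k
      have := huv _ ⟨k, rfl⟩
      rw [up_prod] at this
      have h2 := this.2
      rw [Pt.up_chain hB] at h2
      exact h2
    obtain ⟨p, rfl⟩ : ∃ p, u = Pt.lim p := by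
      cases u with
      | chain l => exact (hbu : False).elim
      | sup => exact (hbu : False).elim
      | base => exact (hcu 0 : False).elim
      | fin n =>
        have : n + 1 ≤ n := hcu (n + 1)
        omega
      | lim p => exact ⟨p, rfl⟩
    obtain ⟨q, rfl⟩ : ∃ p, v = Pt.lim p := by
      cases v with
      | chain l => exact (hbv : False).elim
      | sup => exact (hbv : False).elim
      | base => exact (hcv 0 : False).elim
      | fin n =>
        have : n + 1 ≤ n := hcv (n + 1)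
        omega
      | lim p => exact ⟨p, rfl⟩
    have hpq : p.1 ≠ q.1 := by
      intro heq
      exact Set.disjoint_left.1 hAB p.2 (heq ▸ q.2)
    obtain ⟨S, hSp, hSq⟩ : ∃ S, S ∈ p.1 ∧ S ∉ q.1 := by
      by_contra hcon
      push Not at hcon
      exact hpq (Ultrafilter.eq_of_le (fun S hS => by
        by_contra hSp
        have h3 := Ultrafilter.compl_mem_iff_notMem.2 hSp
        have h4 := hcon _ h3
        exact Ultrafilter.compl_notMem_iff.2 hS h4))
    have hSq' : Sᶜ ∈ q.1 := Ultrafilter.compl_mem_iff_notMem.2 hSq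
    rw [mem_compl_iff, mem_closure_iff]
    intro hcl
    obtain ⟨w, ⟨hw1, hw2⟩, ⟨n, rfl⟩⟩ := hcl (Pt.ol p S ×ˢ Pt.ol q Sᶜ)
      ((Pt.isOpen_ol hSp).prod (Pt.isOpen_ol hSq')) ⟨rfl, rfl⟩
    exact (hw2 : n ∈ Sᶜ) hw1)
  have hmem : ((Pt.fin k, Pt.fin k) : Pt A × Pt B) ∈
      up ((Pt.chain k, Pt.chain k) : Pt A × Pt B) ∩ up (Pt.base, Pt.base) := by
    rw [up_prod, up_prod]
    refine ⟨⟨?_, ?_⟩, ⟨?_, ?_⟩⟩
    · show _ ∈ up (Pt.chain k)
      rw [Pt.up_chain hA]; exact (le_refl k : k ≤ k)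
    · show _ ∈ up (Pt.chain k)
      rw [Pt.up_chain hB]; exact (le_refl k : k ≤ k)
    · show _ ∈ up Pt.base
      rw [Pt.up_base]; trivial
    · show _ ∈ up Pt.base
      rw [Pt.up_base]; trivial
  exact hk hmem (subset_closure ⟨k, rfl⟩)

end Pool.Agent.N489.SD
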