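import Mathlib
import Pool.Agent.N489.SD.Space

set_option autoImplicit false

/-! # A strong d-space whose square is not a strong d-space -/

open Set Topology

namespace Pool.Agent.N489.SD

theorem up_image {X Y : Type*} [TopologicalSpace X] [TopologicalSpace Y] {j : X → Y}
    (hj : IsOpenEmbedding j) (x : X) : up (j x) = j '' up x := by
  ext y
  constructor
  · intro hy
    have h1 := mem_up_iff.1 hy (range j) hj.isOpen_range ⟨x, rfl⟩
    obtain ⟨z, rfl⟩ := h1
    refine ⟨z, ?_, rfl⟩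
    rw [mem_up_iff]
    intro U hU hx
    have h2 := mem_up_iff.1 hy (j '' U) (hj.isOpenMap U hU) ⟨x, hx, rfl⟩
    obtain ⟨w, hw, hwz⟩ := h2
    rwa [← hj.injective hwz]
  · rintro ⟨z, hz, rfl⟩
    rw [mem_up_iff]
    intro U hU hx
    exact mem_up_iff.1 hz _ (hU.preimage hj.continuous) hx

theorem StrongDSpace.of_isOpenEmbedding {X Y : Type*} [TopologicalSpace X] [TopologicalSpace Y]
    {j : X → Y} (hj : IsOpenEmbedding j) (hY : StrongDSpace Y) : StrongDSpace X := by
  have hT := hY.1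
  refine ⟨hj.isEmbedding.t0Space, ?_⟩
  intro D hD x U hU hsub
  have hD' : IsDirected (j '' D) := by
    refine ⟨hD.1.image j, ?_⟩
    rintro _ ⟨a, ha, rfl⟩ _ ⟨b, hb, rfl⟩
    obtain ⟨c, hc, h1, h2⟩ := hD.2 a ha b hb
    refine ⟨_, ⟨c, hc, rfl⟩, ?_, ?_⟩
    · rw [up_image hj]; exact ⟨c, h1, rfl⟩
    · rw [up_image hj]; exact ⟨c, h2, rfl⟩
  obtain ⟨_, ⟨d, hd, rfl⟩, h⟩ := hY.2 _ hD' (j x) (j '' U) (hj.isOpenMap U hU) (by
    rintro y ⟨hy1, hy2⟩
    rw [up_image hj] at hy2
    obtain ⟨z, hz, rfl⟩ := hy2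
    refine ⟨z, hsub ⟨?_, hz⟩, rfl⟩
    rw [mem_iInter₂] at hy1 ⊢
    intro d hd
    have := hy1 (j d) ⟨d, hd, rfl⟩
    rw [up_image hj] at this
    obtain ⟨w, hw, hwz⟩ := this
    rwa [← hj.injective hwz])
  refine ⟨d, hd, ?_⟩
  rintro y ⟨hy1, hy2⟩
  have h3 : j y ∈ up (j d) ∩ up (j x) := by
    rw [up_image hj, up_image hj]
    exact ⟨⟨y, hy1, rfl⟩, ⟨y, hy2, rfl⟩⟩
  obtain ⟨w, hw, hwy⟩ := h h3
  rwa [← hj.injective hwy]

/-- the disjoint sum of two strong d-spaces is a strong d-space -/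
theorem StrongDSpace.sum {X Y : Type} [TopologicalSpace X] [TopologicalSpace Y]
    (hX : StrongDSpace X) (hY : StrongDSpace Y) : StrongDSpace (X ⊕ Y) := by
  have hT := hX.1
  have hT' := hY.1
  have key : ∀ {Z : Type} [TopologicalSpace Z] (j : Z → X ⊕ Y), IsOpenEmbedding j →
      StrongDSpace Z → ∀ D : Set (X ⊕ Y), IsDirected D → D ⊆ range j → ∀ (x : Z) (U : Set (X ⊕ Y)),
      IsOpen U → (⋂ d ∈ D, up d) ∩ up (j x) ⊆ U → ∃ d ∈ D, up d ∩ up (j x) ⊆ U := by
    intro Z _ j hj hZ D hD hDj x U hU hsub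
    have hD' : IsDirected (j ⁻¹' D) := by
      refine ⟨?_, ?_⟩
      · obtain ⟨d, hd⟩ := hD.1
        obtain ⟨z, rfl⟩ := hDj hd
        exact ⟨z, hd⟩
      · intro a ha b hb
        obtain ⟨c, hc, h1, h2⟩ := hD.2 _ ha _ hb
        obtain ⟨z, rfl⟩ := hDj hc
        rw [up_image hj] at h1 h2
        obtain ⟨w1, hw1, hw1'⟩ := h1
        obtain ⟨w2, hw2, hw2'⟩ := h2
        refine ⟨z, hc, ?_, ?_⟩
        · rwa [← hj.injective hw1']
        · rwa [← hj.injective hw2']
    obtain ⟨d, hd, h⟩ := hZ.2 _ hD' x (j ⁻¹' U) (hU.preimage hj.continuous) (by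
      rintro y ⟨hy1, hy2⟩
      apply hsub
      refine ⟨?_, ?_⟩
      · rw [mem_iInter₂] at hy1 ⊢
        intro d hd
        obtain ⟨z, rfl⟩ := hDj hd
        rw [up_image hj]
        exact ⟨y, hy1 z hd, rfl⟩
      · rw [up_image hj]
        exact ⟨y, hy2, rfl⟩)
    refine ⟨_, hd, ?_⟩
    rw [up_image hj, up_image hj]
    rintro _ ⟨⟨y, hy, rfl⟩, ⟨z, hz, hzy⟩⟩
    rw [hj.injective hzy] at hz
    exact h ⟨hy, hz⟩
  have hdisj : ∀ (a : X) (b : Y), (Sum.inl a : X ⊕ Y) ∉ up (Sum.inr b : X ⊕ Y) := by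
    intro a b h
    rw [up_image IsOpenEmbedding.inr] at h
    obtain ⟨_, _, h⟩ := h
    cases h
  have hdisj' : ∀ (a : X) (b : Y), (Sum.inr b : X ⊕ Y) ∉ up (Sum.inl a : X ⊕ Y) := by
    intro a b h
    rw [up_image IsOpenEmbedding.inl] at h
    obtain ⟨_, _, h⟩ := h
    cases h
  have hT0 : T0Space (X ⊕ Y) := by
    refine ⟨fun x y h => ?_⟩
    have h1 : y ∈ up x := mem_up_iff.2 fun U hU hx => (h.mem_open_iff hU).1 hx
    have hsub : ∀ {Z : Type} [TopologicalSpace Z] [T0Space Z] (j : Z → X ⊕ Y),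
        IsOpenEmbedding j → ∀ a b : Z, Inseparable (j a) (j b) → j a = j b := by
      intro Z _ _ j hj a b hab
      rw [(hj.isInducing.inseparable_iff.1 hab).eq]
    rcases x with x | x <;> rcases y with y | y
    · exact hsub Sum.inl IsOpenEmbedding.inl x y h
    · exact absurd h1 (hdisj' _ _)
    · exact absurd h1 (hdisj _ _)
    · exact hsub Sum.inr IsOpenEmbedding.inr x y h
  refine ⟨hT0, ?_⟩
  intro D hD x U hU hsub
  obtain ⟨d₀, hd₀⟩ := hD.1
  rcases d₀ with a | b
  · have hDX : D ⊆ range Sum.inl := by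
      rintro (c | c) hc
      · exact ⟨c, rfl⟩
      · obtain ⟨e, he, h1, h2⟩ := hD.2 _ hd₀ _ hc
        rcases e with e | e
        · exact absurd h2 (hdisj _ _)
        · exact absurd h1 (hdisj' _ _)
    rcases x with x | x
    · exact key Sum.inl IsOpenEmbedding.inl hX D hD hDX x U hU hsub
    · refine ⟨_, hd₀, ?_⟩
      rintro (y | y) ⟨hy1, hy2⟩
      · exact absurd hy2 (hdisj _ _)
      · exact absurd hy1 (hdisj' _ _)
  · have hDX : D ⊆ range Sum.inr := by
      rintro (c | c) hc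
      · obtain ⟨e, he, h1, h2⟩ := hD.2 _ hd₀ _ hc
        rcases e with e | e
        · exact absurd h1 (hdisj _ _)
        · exact absurd h2 (hdisj' _ _)
      · exact ⟨c, rfl⟩
    rcases x with x | x
    · refine ⟨_, hd₀, ?_⟩
      rintro (y | y) ⟨hy1, hy2⟩
      · exact absurd hy1 (hdisj _ _)
      · exact absurd hy2 (hdisj' _ _)
    · exact key Sum.inr IsOpenEmbedding.inr hY D hD hDX x U hU hsub

/-- there is a strong d-space whose square is not a strong d-space -/
theorem exists_square : ∃ (X : Type) (_ : TopologicalSpace X),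
    StrongDSpace X ∧ ¬ StrongDSpace (X × X) := by
  obtain ⟨A, B, hA, hB, hdA, hdB, hAB⟩ := exists_dense_pair
  refine ⟨Pt A ⊕ Pt B, inferInstance, (Pt.strongDSpace hA hdA).sum (Pt.strongDSpace hB hdB), ?_⟩
  intro h
  apply not_strongDSpace_prod hA hB hAB
  exact h.of_isOpenEmbedding (j := fun z : Pt A × Pt B => (Sum.inl z.1, Sum.inr z.2))
    (IsOpenEmbedding.inl.prodMap IsOpenEmbedding.inr)

/-- a retract of a strong d-space is a strong d-space -/
theorem StrongDSpace.of_retract {X Z : Type*} [TopologicalSpace X] [TopologicalSpace Z]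
    {s : X → Z} {r : Z → X} (hs : Continuous s) (hr : Continuous r) (hrs : ∀ x, r (s x) = x)
    (hZ : StrongDSpace Z) : StrongDSpace X := by
  have hT := hZ.1
  have hmap : ∀ {x y : X}, y ∈ up x → s y ∈ up (s x) := by
    intro x y h
    rw [mem_up_iff] at h ⊢
    exact fun U hU hx => h _ (hU.preimage hs) hx
  have hmap' : ∀ {x y : Z}, y ∈ up x → r y ∈ up (r x) := by
    intro x y h
    rw [mem_up_iff] at h ⊢
    exact fun U hU hx => h _ (hU.preimage hr) hx
  refine ⟨?_, ?_⟩
  · refine ⟨fun x y h => ?_⟩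
    have h1 : Inseparable (s x) (s y) := h.map hs
    have h2 := h1.eq
    rw [← hrs x, ← hrs y, h2]
  · intro D hD x U hU hsub
    have hD' : IsDirected (s '' D) := by
      refine ⟨hD.1.image s, ?_⟩
      rintro _ ⟨a, ha, rfl⟩ _ ⟨b, hb, rfl⟩
      obtain ⟨c, hc, h1, h2⟩ := hD.2 a ha b hb
      exact ⟨_, ⟨c, hc, rfl⟩, hmap h1, hmap h2⟩
    obtain ⟨_, ⟨d, hd, rfl⟩, h⟩ := hZ.2 _ hD' (s x) (r ⁻¹' U) (hU.preimage hr) (by
      rintro y ⟨hy1, hy2⟩
      apply hsub
      rw [mem_iInter₂] at hy1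
      refine ⟨mem_iInter₂.2 fun d hd => ?_, ?_⟩
      · have := hmap' (hy1 (s d) ⟨d, hd, rfl⟩)
        rwa [hrs] at this
      · have := hmap' hy2
        rwa [hrs] at this)
    refine ⟨d, hd, ?_⟩
    rintro y ⟨hy1, hy2⟩
    have := h ⟨hmap hy1, hmap hy2⟩
    rw [mem_preimage, hrs] at this
    exact this

theorem not_power {X : Type*} [TopologicalSpace X] (h : ¬ StrongDSpace (X × X)) (I : Type*)
    [Nontrivial I] : ¬ StrongDSpace (I → X) := by
  classical
  obtain ⟨i, j, hij⟩ := exists_pair_ne I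
  intro hI
  apply h
  refine hI.of_retract (s := fun z k => if k = i then z.1 else z.2) (r := fun f => (f i, f j))
    ?_ (by fun_prop) ?_
  · apply continuous_pi
    intro k
    by_cases hk : k = i
    · simp only [hk, if_true]; exact continuous_fst
    · simp only [hk, if_false]; exact continuous_snd
  · intro z
    simp [hij.symm]

theorem not_function_space {Y : Type*} [TopologicalSpace Y] (h : ¬ StrongDSpace (Y × Y))
    (X : Type*) [TopologicalSpace X] (hX : ¬ PreconnectedSpace X) :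
    ¬ StrongDSpace {f : X → Y // Continuous f} := by
  classical
  obtain ⟨C, hC, hC0, hC1⟩ : ∃ C : Set X, IsClopen C ∧ C.Nonempty ∧ Cᶜ.Nonempty := by
    by_contra hcon
    push Not at hcon
    apply hX
    rw [preconnectedSpace_iff_clopen]
    intro s hs
    rcases s.eq_empty_or_nonempty with h1 | h1
    · exact Or.inl h1
    · right
      have := hcon s hs h1
      exact Set.compl_empty_iff.1 this
  obtain ⟨a, ha⟩ := hC0
  obtain ⟨b, hb⟩ := hC1
  intro hI
  apply h
  have hcont : ∀ z : Y × Y, Continuous fun x : X => if x ∈ C then z.1 else z.2 := by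
    intro z
    refine Continuous.if ?_ continuous_const continuous_const
    intro x hx
    have h1 : frontier {x | x ∈ C} = ∅ := hC.frontier_eq
    rw [h1] at hx
    exact absurd hx (Set.notMem_empty x)
  refine hI.of_retract (s := fun z => ⟨fun x : X => if x ∈ C then z.1 else z.2, hcont z⟩)
    (r := fun f => (f.1 a, f.1 b)) ?_ ?_ ?_
  · apply Continuous.subtype_mk
    apply continuous_pi
    intro x
    by_cases hx : x ∈ C
    · simp only [hx, if_true]; exact continuous_fst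
    · simp only [hx, if_false]; exact continuous_snd
  · exact ((continuous_apply a).comp continuous_subtype_val).prodMk
      ((continuous_apply b).comp continuous_subtype_val)
  · intro z
    have hb' : b ∉ C := hb
    simp [ha, hb']

end Pool.Agent.N489.SD
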